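import Pool.Agent.H691.MM.Grid

set_option autoImplicit false

namespace Pool.Agent.H691.MM

open Pool.Agent.W982.TA Pool.Agent.H691.Geo Pool.Agent.NPC

/-! ### the instance: tasks I1, I2, I3 -/

theorem i1 : TaskI1 := by
  intro φ q
  unfold Wset Wlist
  simp only [List.mem_toFinset, List.mem_flatMap, List.mem_map, List.mem_range]
  constructor
  · rintro ⟨i, hi, j, hj, c, hc, rfl⟩
    exact ⟨i, hi, j, hj, c, hc, by push_cast; rfl⟩
  · rintro ⟨i, hi, j, hj, c, hc, rfl⟩
    exact ⟨i, hi, j, hj, c, hc, by push_cast; rfl⟩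

/-- the size of the cells -/
def i2_chk (l : List (ℕ × ℕ)) : Bool := l.all fun c => Nat.blt c.1 21 && Nat.blt c.2 39

theorem i2_size (t : ℕ) : ∀ c ∈ cells t, c.1 < 21 ∧ c.2 < 39 := by
  have key : ∀ l : List (ℕ × ℕ), i2_chk l = true → ∀ c ∈ l, c.1 < 21 ∧ c.2 < 39 := by
    intro l hl c hc
    have h := List.all_eq_true.1 hl c hc
    rw [Bool.and_eq_true] at h
    exact ⟨by simpa [Nat.blt_eq] using h.1, by simpa [Nat.blt_eq] using h.2⟩
  unfold cells
  split_ifs <;> apply key <;> decide +kernel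

/-- the cells are not in the row zero -/
def i2_chk2 (l : List (ℕ × ℕ)) : Bool := l.all fun c => Nat.blt 0 c.2

theorem i2_pos (t : ℕ) (ht : t = 4 ∨ t = 5) : ∀ c ∈ cells t, 0 < c.2 := by
  have key : ∀ l : List (ℕ × ℕ), i2_chk2 l = true → ∀ c ∈ l, 0 < c.2 := by
    intro l hl c hc
    have h := List.all_eq_true.1 hl c hc
    simpa [Nat.blt_eq] using h
  rcases ht with rfl | rfl
  · exact key cells4 (by decide +kernel)
  · exact key cells5 (by decide +kernel)

theorem i2 : TaskI2 := by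
  intro φ _ q hq
  obtain ⟨i, hi, j, hj, c, hc, rfl⟩ := (i1 φ q).1 hq
  obtain ⟨h1, h2⟩ := i2_size _ c hc
  have h3 : 0 < 39 * i + c.2 := by
    rcases Nat.eq_zero_or_pos i with rfl | h
    · have : ty φ 0 j = 4 ∨ ty φ 0 j = 5 := by
        unfold ty
        by_cases hj0 : j = 0
        · right; simp [hj0]
        · left; simp [hj0]
      have := i2_pos _ this c hc
      omega
    · omega
  unfold lbox bX bY
  rw [Finset.mem_product, Finset.mem_Ico, Finset.mem_Ioo]
  push_cast
  refine ⟨⟨?_, ?_⟩, ?_, ?_⟩ <;> omega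

theorem i3_flat {α β : Type} {l : List α} {f : α → List β} (g : β → α) (hl : l.Nodup)
    (hf : ∀ x ∈ l, (f x).Nodup) (hg : ∀ x ∈ l, ∀ y ∈ f x, g y = x) : (l.flatMap f).Nodup := by
  rw [List.nodup_flatMap]
  refine ⟨hf, ?_⟩
  have h := List.Pairwise.and_mem.1 hl
  refine h.imp ?_
  rintro a b ⟨ha, hb, hab⟩ y hya hyb
  exact hab ((hg a ha y hya).symm.trans (hg b hb y hyb))

theorem i3_cells (t : ℕ) : (cells t).Nodup := by
  unfold cells
  split_ifs <;> decide +kernel

theorem i3_W (φ : List Cl) : (Wlist φ).Nodup := by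
  unfold Wlist
  refine i3_flat (fun q => (q.2 / 39).toNat) List.nodup_range ?_ ?_
  · intro i _
    refine i3_flat (fun q => (q.1 / 21).toNat) List.nodup_range ?_ ?_
    · intro j _
      refine List.Nodup.map ?_ (i3_cells _)
      rintro ⟨a, b⟩ ⟨c, d⟩ h
      simp only [Prod.mk.injEq] at h ⊢
      omega
    · intro j _ q hq
      rw [List.mem_map] at hq
      obtain ⟨c, hc, rfl⟩ := hq
      have := (i2_size _ c hc).1
      show (((21 * j + c.1 : ℕ) : ℤ) / 21).toNat = j
      omega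
  · intro i _ q hq
    rw [List.mem_flatMap] at hq
    obtain ⟨j, _, hq⟩ := hq
    rw [List.mem_map] at hq
    obtain ⟨c, hc, rfl⟩ := hq
    have := (i2_size _ c hc).2
    show (((39 * i + c.2 : ℕ) : ℤ) / 39).toNat = i
    omega

theorem i3_N (φ : List Cl) : 8 ≤ bN φ := by unfold bN; omega

theorem i3_lat (φ : List Cl) : ((List.range (bX φ + 1)).flatMap fun x => (List.range (bY φ + 1)).map
    fun y => ((((bN φ * x : ℕ) : ℤ), ((bN φ * y : ℕ) : ℤ)) : Pt)).Nodup := by
  have hN := i3_N φ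
  have hN0 : (bN φ : ℤ) ≠ 0 := by omega
  refine i3_flat (fun q => (q.1 / (bN φ : ℤ)).toNat) List.nodup_range ?_ ?_
  · intro x _
    refine List.Nodup.map ?_ List.nodup_range
    intro a b h
    simp only [Prod.mk.injEq, true_and] at h
    have h' : bN φ * a = bN φ * b := by exact_mod_cast h
    exact Nat.eq_of_mul_eq_mul_left (by omega) h'
  · intro x _ q hq
    rw [List.mem_map] at hq
    obtain ⟨y, _, rfl⟩ := hq
    show (((bN φ * x : ℕ) : ℤ) / (bN φ : ℤ)).toNat = x
    push_cast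
    rw [Int.mul_ediv_cancel_left _ hN0]
    exact Int.toNat_natCast x

theorem i3_W' (φ : List Cl) :
    ((Wlist φ).map fun w => (((bN φ : ℤ) * w.1 + 1, (bN φ : ℤ) * w.2) : Pt)).Nodup := by
  have hN := i3_N φ
  have hN0 : (bN φ : ℤ) ≠ 0 := by omega
  refine List.Nodup.map ?_ (i3_W φ)
  rintro ⟨a, b⟩ ⟨c, d⟩ h
  simp only [Prod.mk.injEq, add_left_inj] at h ⊢
  exact ⟨mul_left_cancel₀ hN0 h.1, mul_left_cancel₀ hN0 h.2⟩

theorem i3 : TaskI3 := by
  intro φ _
  have hN := i3_N φ
  constructor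
  · unfold Plist
    refine List.Nodup.append (i3_lat φ) (i3_W' φ) ?_
    intro q h1 h2
    simp only [List.mem_flatMap, List.mem_map, List.mem_range] at h1 h2
    obtain ⟨x, _, y, _, rfl⟩ := h1
    obtain ⟨w, _, h⟩ := h2
    simp only [Prod.mk.injEq] at h
    have h3 := h.1
    push_cast at h3
    have h4 : (bN φ : ℤ) ∣ 1 := ⟨x - w.1, by linear_combination h3⟩
    have h5 := Int.le_of_dvd one_pos h4
    omega
  · ext q
    unfold Plist SS Wset box sp
    simp only [List.mem_toFinset, List.mem_append, List.mem_flatMap, List.mem_map, List.mem_range,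
      Finset.mem_union, Finset.mem_image, Finset.mem_product, Finset.mem_Icc, add_zero]
    constructor
    · rintro (⟨x, hx, y, hy, rfl⟩ | h)
      · left
        refine ⟨((x : ℤ), (y : ℤ)), ⟨⟨?_, ?_⟩, ?_, ?_⟩, ?_⟩
        · dsimp only; omega
        · dsimp only; omega
        · dsimp only; omega
        · dsimp only; omega
        · push_cast; rfl
      · right; exact h
    · rintro (⟨⟨a, b⟩, ⟨⟨h1, h2⟩, h3, h4⟩, rfl⟩ | h)
      · left
        dsimp only at h1 h2 h3 h4
        refine ⟨a.toNat, by omega, b.toNat, by omega, ?_⟩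
        push_cast
        rw [Int.toNat_of_nonneg h1, Int.toNat_of_nonneg h3]
      · right; exact h

end Pool.Agent.H691.MM
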